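import Pool.Agent.Helper76.T3.StU

/-!
# Project T3, module KerOS3: dimension of the kernel of the hexagon relation, with signs
-/

set_option autoImplicit false

namespace Pool.Agent.Helper86.T3

open Pool.Agent.Helper76.T3 Pool.Agent.Helper14.T3 Pool.Agent.Helper78.W3 Pool.Agent.Helper14.W3
open Pool.Agent.Helper76.TX (Sg)

private theorem rank_eqS (hR : RmapS3) (η ε : ℤ) (k : ℕ) (hη : Sg η) (hε : Sg ε) (hk : 1 ≤ k) :
    Module.finrank ℂ ↥(antiF3S k η ε) +
        Module.finrank ℂ ↥(antiO3S k η ε ⊓ LinearMap.ker (Rh k)) =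
      Module.finrank ℂ ↥(antiO3S k η ε) := by
  rw [← hR η ε k hη hε hk]
  have h3 := LinearMap.finrank_range_add_finrank_ker ((Rh k).domRestrict (antiO3S k η ε))
  have h4 : Module.finrank ℂ ↥(LinearMap.range ((Rh k).domRestrict (antiO3S k η ε)))
      = Module.finrank ℂ ↥((antiO3S k η ε).map (Rh k)) := by
    rw [LinearMap.range_domRestrict]
  have h5 : Module.finrank ℂ ↥(LinearMap.ker ((Rh k).domRestrict (antiO3S k η ε)))
      = Module.finrank ℂ ↥(antiO3S k η ε ⊓ LinearMap.ker (Rh k)) := by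
    have h6 : antiO3S k η ε ⊓ LinearMap.ker (Rh k)
        = (LinearMap.ker ((Rh k).domRestrict (antiO3S k η ε))).map (antiO3S k η ε).subtype := by
      ext x
      simp [Submodule.mem_map, LinearMap.mem_ker, LinearMap.domRestrict_apply, and_comm]
    rw [h6]
    exact (LinearEquiv.finrank_eq
      (Submodule.equivMapOfInjective _ (antiO3S k η ε).injective_subtype _))
  rw [← h4, ← h5]
  exact h3

theorem hKerOS3 (h1 : RmapS3) (h2 : DimOS3) (h3 : DimFS3) : KerOS3 := by
  intro η ε k hη hε hk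
  have e1 := h2 η ε k hη hε (by omega)
  have e2 := h3 η ε k hη hε hk
  have e3 := rank_eqS h1 η ε k hη hε (by omega)
  have e4 : (Module.finrank ℂ ↥(antiF3S k η ε) : ℤ) +
      (Module.finrank ℂ ↥(antiO3S k η ε ⊓ LinearMap.ker (Rh k)) : ℤ) =
      (Module.finrank ℂ ↥(antiO3S k η ε) : ℤ) := by exact_mod_cast e3
  have e5 : (9 : ℤ) ^ (k - 1) = 3 ^ (k - 1) * 3 ^ (k - 1) := by
    rw [← mul_pow]
    norm_num
  rw [e5] at e1 e2
  linarith [mul_assoc ((3 : ℤ) ^ (k - 1)) η ε]

end Pool.Agent.Helper86.T3
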