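import Pool.Agent.Helper14.T3.StL

/-!
# Project T3, module Tree3: closed formula for a symbol with quadratic plane functions
-/

set_option autoImplicit false

namespace Pool.Agent.Helper86.T3

open Pool.Agent.Helper14.T3 Pool.Agent.Helper14.W3 Pool.Agent.Helper78.W3

private theorem mod3 : ∀ a d : ZMod 3, a * d = 1 → a * a = 1 ∧ d = a := by decide

/-- Coordinates modulo 3. -/
private theorem r3_of {r : ℕ} (hr : 1 ≤ r) {a b : ℤ} (ha : (a : ZMod 3) * a = 1)
    {x : ZMod (3 ^ r)} (h : (b : ZMod (3 ^ r)) = x * a) : r3 x = (a : ZMod 3) * b := by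
  have : NeZero (3 ^ r) := ⟨by positivity⟩
  have hd : 3 ∣ 3 ^ r := dvd_pow_self 3 (by omega)
  have e := congrArg (ZMod.castHom hd (ZMod 3)) h
  rw [map_mul, map_intCast, map_intCast] at e
  have e2 : r3 x = ZMod.castHom hd (ZMod 3) x := by
    unfold r3
    have := ZMod.natCast_zmod_val x
    rw [← map_natCast (ZMod.castHom hd (ZMod 3)) x.val, this]
  rw [e2, e]
  linear_combination (-(ZMod.castHom hd (ZMod 3) x)) * ha

/-- Every matrix has coordinates. -/
private theorem exPl3 {r s : ℕ} {a b c d : ℤ} (h : a * d - 3 ^ (1 + 1) * b * c = 1) :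
    ∃ (x : ZMod (3 ^ r)) (y : ZMod (3 ^ s)), Pl3 1 a b c d x y := by
  have ha : IsUnit (a : ZMod (3 ^ r)) := by
    rw [ZMod.coe_int_isUnit_iff_isCoprime]
    push_cast
    exact IsCoprime.pow_left ⟨-3 * b * c, d, by linear_combination h⟩
  have hd : IsUnit (d : ZMod (3 ^ s)) := by
    rw [ZMod.coe_int_isUnit_iff_isCoprime]
    push_cast
    exact IsCoprime.pow_left ⟨-3 * b * c, a, by linear_combination h⟩
  refine ⟨b * (a : ZMod (3 ^ r))⁻¹, c * (d : ZMod (3 ^ s))⁻¹, h, ?_, ?_⟩
  · rw [mul_assoc, ZMod.inv_mul_of_unit _ ha, mul_one]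
  · rw [mul_assoc, ZMod.inv_mul_of_unit _ hd, mul_one]

private theorem IZ01 : IZ 0 1 = 0 := by
  unfold IZ
  simp

private theorem E3_10 (al A B C u0 u1 u2 : ZMod 3) : E3 al A B C u0 u1 u2 1 0 = 0 := by
  unfold E3
  have h1 : ¬ (3 : ℤ) ∣ 1 := by decide
  have h2 : (3 : ℤ) ∣ 0 := dvd_zero 3
  rw [if_neg h1, if_pos h2]
  have h3 : (0 : ℤ) / 3 = 0 := rfl
  rw [h3, IZ01]
  simp

theorem hTree3 (hEedge : Eedge) (hFarp : Farp) (_hPlA : S3PlA) (hEdg : S3Edg) : Tree3 := by
  intro r s H al A B C u0 u1 u2 hr hH hQ p q hpq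
  obtain ⟨hQ0, hQ1⟩ := hQ
  obtain ⟨hEneg, hEe⟩ := hEedge al A B C u0 u1 u2
  have hneg : ∀ p q : ℤ, H (-p) (-q) = H p q := by
    intro p q
    by_cases h : p ≠ 0 ∨ q ≠ 0
    · have := hH.1 (-1) p q (by norm_num) h
      rwa [neg_one_mul, neg_one_mul] at this
    · push Not at h
      rw [h.1, h.2, neg_zero]
  have key := hFarp (fun p q => H p q - E3 al A B C u0 u1 u2 p q)
    (by
      intro p q
      change H (-p) (-q) - E3 al A B C u0 u1 u2 (-p) (-q) = _
      rw [hneg, hEneg])
    (by
      intro a b c d h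
      have hdet : a * d - 3 ^ (1 + 1) * b * c = 1 := by linear_combination h
      obtain ⟨x, y, hp⟩ := exPl3 (r := r) (s := s) hdet
      obtain ⟨e1, e2, e3'⟩ := hEe a b c d h
      obtain ⟨q1, q2, q3⟩ := hQ1 x y
      have hmod : (a : ZMod 3) * d = 1 := by
        have e := congrArg (fun z : ℤ => (z : ZMod 3)) h
        push_cast at e
        have h9 : (9 : ZMod 3) = 0 := by decide
        rw [h9] at e
        linear_combination e
      obtain ⟨haa, hda⟩ := mod3 _ _ hmod
      have hx : r3 x = (a : ZMod 3) * b := r3_of hr haa hp.2.1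
      have hy : s = 0 ∨ r3 y = (a : ZMod 3) * c := by
        rcases Nat.eq_zero_or_pos s with h0 | h0
        · exact Or.inl h0
        · right
          have hdd : (d : ZMod 3) * d = 1 := by rw [hda]; exact haa
          rw [r3_of h0 hdd hp.2.2, hda]
      have hy0 : s = 0 → r3 y = 0 := by
        rintro rfl
        have : y = 0 := Subsingleton.elim (α := ZMod 1) _ _
        rw [this]
        unfold r3
        rw [ZMod.val_zero, Nat.cast_zero]
      -- the three edges
      have edge : ∀ e : ℤ, edge3 1 1 0 e 1 H x y =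
          H a (3 * c) - H (a * e + 3 * b) (3 * c * e + d) := by
        intro e
        rw [hEdg (ZMod 3) _ 1 r s H hH 1 0 e 1 (Or.inl one_ne_zero) (Or.inr one_ne_zero)
          x y a b c d hp]
        congr 1 <;> congr 1 <;> ring
      have f0 : H a (3 * c) - H (3 * b) d = al * r3 x + (2 * u1 + u2 + 2 * A + C) * r3 y := by
        rw [← q1]
        change _ = edge3 1 1 0 (e3 0) 1 H x y
        rw [edge (e3 0)]
        have : e3 0 = 0 := rfl
        rw [this, mul_zero, zero_add, mul_zero, zero_add]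
      have f1 : H a (3 * c) - H (a + 3 * b) (3 * c + d) =
          u0 + u1 * r3 x + u2 * r3 y + A * r3 x ^ 2 + B * r3 x * r3 y + C * r3 y ^ 2 := by
        rw [← q2]
        change _ = edge3 1 1 0 (e3 1) 1 H x y
        rw [edge (e3 1)]
        have : e3 1 = 1 := rfl
        rw [this, mul_one, mul_one]
      have f2 : H a (3 * c) - H (3 * b - a) (d - 3 * c) =
          -(u0 - u1 * r3 x - u2 * r3 y + A * r3 x ^ 2 + B * r3 x * r3 y + C * r3 y ^ 2) := by
        rw [← q3]
        change _ = edge3 1 1 0 (e3 2) 1 H x y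
        rw [edge (e3 2)]
        have : e3 2 = -1 := rfl
        rw [this]
        congr 2 <;> ring
      rw [hx] at f0 f1 f2
      have g0 : H a (3 * c) - H (3 * b) d = E3 al A B C u0 u1 u2 a (3 * c) -
          E3 al A B C u0 u1 u2 (3 * b) d := by
        rw [f0, e1]
        rcases hy with h0 | h0
        · obtain ⟨z1, z2, z3, z4⟩ := hQ0 h0
          rw [hy0 h0, z1, z3]
          linear_combination (-2 * (a * c : ZMod 3)) * z4
        · rw [h0]
      have g1 : H a (3 * c) - H (a + 3 * b) (3 * c + d) = E3 al A B C u0 u1 u2 a (3 * c) -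
          E3 al A B C u0 u1 u2 (a + 3 * b) (3 * c + d) := by
        rw [f1, e2]
        rcases hy with h0 | h0
        · obtain ⟨z1, z2, z3, z4⟩ := hQ0 h0
          rw [hy0 h0, z1, z2, z3]
          ring
        · rw [h0]
      have g2 : H a (3 * c) - H (3 * b - a) (d - 3 * c) = E3 al A B C u0 u1 u2 a (3 * c) -
          E3 al A B C u0 u1 u2 (3 * b - a) (d - 3 * c) := by
        rw [f2, e3']
        rcases hy with h0 | h0
        · obtain ⟨z1, z2, z3, z4⟩ := hQ0 h0
          rw [hy0 h0, z1, z2, z3]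
          ring
        · rw [h0]
      refine ⟨?_, ?_, ?_⟩
      · linear_combination g0
      · linear_combination g1
      · linear_combination g2)
    p q hpq
  rw [E3_10] at key
  linear_combination key

end Pool.Agent.Helper86.T3
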