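import Pool.Agent.Helper28.T3.StC

/-!
# Project T3, module IAq: the sum over `a` of the areas, modulus `q`

With `y = min (2m√m) (X/(2m√m))` we have `y³ ≤ (2m√m) (X/(2m√m))² = X²/(2m√m)`, hence
`y ≤ X^(2/3) m^(-1/2)`, whose integral over `[0, √(X/3)]` is at most `2 X^(11/12)`.
-/

set_option autoImplicit false

open MeasureTheory

namespace Pool.Agent.Helper86.T3

open Pool.Agent.Helper28.T3

private theorem min_bound (X m : ℝ) (hX : 0 < X) (hm : 0 < m) :
    min (2 * m * Real.sqrt m) (X / (2 * m * Real.sqrt m)) ≤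
      X ^ (2 / 3 : ℝ) * m ^ (-(1 / 2) : ℝ) := by
  have hs : 0 < Real.sqrt m := Real.sqrt_pos.mpr hm
  set s : ℝ := Real.sqrt m with hsdef
  have hss : s * s = m := Real.mul_self_sqrt hm.le
  have hu : 0 < 2 * m * s := by positivity
  set y : ℝ := min (2 * m * s) (X / (2 * m * s)) with hy
  have hy0 : 0 ≤ y := le_min hu.le (by positivity)
  have hy1 : y ≤ 2 * m * s := min_le_left _ _
  have hy2 : y ≤ X / (2 * m * s) := min_le_right _ _
  have hcube : y ^ 3 ≤ (X ^ (2 / 3 : ℝ) * m ^ (-(1 / 2) : ℝ)) ^ 3 := by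
    have e1 : (X ^ (2 / 3 : ℝ)) ^ 3 = X ^ 2 := by
      rw [← Real.rpow_natCast, ← Real.rpow_mul hX.le]
      norm_num
    have e2 : (m ^ (-(1 / 2) : ℝ)) = 1 / s := by
      rw [Real.rpow_neg hm.le, ← Real.sqrt_eq_rpow, ← hsdef, one_div]
    have e3 : (X ^ (2 / 3 : ℝ) * m ^ (-(1 / 2) : ℝ)) ^ 3 = X ^ 2 / (m * s) := by
      rw [mul_pow, e1, e2, ← hss]
      field_simp
    rw [e3]
    calc y ^ 3 = y * y ^ 2 := by ring
      _ ≤ (2 * m * s) * (X / (2 * m * s)) ^ 2 := by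
          apply mul_le_mul hy1 _ (by positivity) hu.le
          exact pow_le_pow_left₀ hy0 hy2 2
      _ = X ^ 2 / (2 * (m * s)) := by field_simp
      _ ≤ X ^ 2 / (m * s) := by
          apply div_le_div_of_nonneg_left (by positivity) (by positivity)
          have : 0 < m * s := by positivity
          linarith
  have hpos : 0 ≤ X ^ (2 / 3 : ℝ) * m ^ (-(1 / 2) : ℝ) := by positivity
  exact le_of_pow_le_pow_left₀ (by norm_num) hpos hcube

/-- Module IAq. -/
theorem hIAq : StSAq → StWM → StIAq := by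
  intro hSA hWM q hq
  have hq0 : (0 : ℝ) < (q : ℝ) := by exact_mod_cast hq
  refine ⟨4, by norm_num, ?_⟩
  intro X hX a0 S hS
  have hX0 : 0 < X := by linarith
  have hR0 : 0 ≤ Real.sqrt (X / 3) := Real.sqrt_nonneg _
  have hR2 : Real.sqrt (X / 3) ^ 2 = X / 3 := Real.sq_sqrt (by positivity)
  have hcont : ∀ a ∈ S, Continuous (Wf X (a : ℝ)) := by
    intro a ha
    have h1 := (hS a ha).1
    have ha0 : (0 : ℝ) < (a : ℝ) := by
      have : (0 : ℤ) < a := by linarith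
      exact_mod_cast this
    exact (hWM X a hX0 ha0).2.2.2.1
  have h1 : ∑ a ∈ S, IW X a / (a : ℝ) ^ 2 =
      ∫ m in (0 : ℝ)..Real.sqrt (X / 3), ∑ a ∈ S, Wf X a m / (a : ℝ) ^ 2 := by
    rw [intervalIntegral.integral_finsetSum]
    · apply Finset.sum_congr rfl
      intro a ha
      rw [intervalIntegral.integral_div]
      rfl
    · intro a ha
      exact ((hcont a ha).div_const _).intervalIntegrable _ _
  have hint1 : IntervalIntegrable (fun m : ℝ => ∑ a ∈ S, Wf X a m / (a : ℝ) ^ 2) volume 0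
      (Real.sqrt (X / 3)) := by
    apply Continuous.intervalIntegrable
    exact continuous_finsetSum _ (fun a ha => (hcont a ha).div_const _)
  have hint2 : IntervalIntegrable (fun m : ℝ => m ^ (-(1 / 2) : ℝ)) volume 0
      (Real.sqrt (X / 3)) := intervalIntegral.intervalIntegrable_rpow' (by norm_num)
  have hint3 : IntervalIntegrable
      (fun m : ℝ => 1 / (q : ℝ) * (Real.pi / 2 * (Real.sqrt X - Real.sqrt 3 * m))) volume 0
      (Real.sqrt (X / 3)) := by
    apply Continuous.intervalIntegrable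
    fun_prop
  have hint4 : IntervalIntegrable
      (fun m : ℝ => 2 * X ^ (2 / 3 : ℝ) * m ^ (-(1 / 2) : ℝ)) volume 0
      (Real.sqrt (X / 3)) := hint2.const_mul _
  have h2 : ∫ m in (0 : ℝ)..Real.sqrt (X / 3), ∑ a ∈ S, Wf X a m / (a : ℝ) ^ 2 ≤
      ∫ m in (0 : ℝ)..Real.sqrt (X / 3),
        (1 / (q : ℝ) * (Real.pi / 2 * (Real.sqrt X - Real.sqrt 3 * m)) +
          2 * X ^ (2 / 3 : ℝ) * m ^ (-(1 / 2) : ℝ)) := by
    apply intervalIntegral.integral_mono_on_of_le_Ioo hR0 hint1 (hint3.add hint4)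
    intro m hm
    have hm0 : 0 < m := hm.1
    have hm3 : 3 * m ^ 2 ≤ X := by
      have : m ^ 2 ≤ Real.sqrt (X / 3) ^ 2 := pow_le_pow_left₀ hm0.le hm.2.le 2
      rw [hR2] at this
      linarith
    have hsa := hSA q hq X m hX0 hm0 hm3 a0 S hS
    have hmin := min_bound X m hX0 hm0
    calc ∑ a ∈ S, Wf X a m / (a : ℝ) ^ 2
        ≤ 1 / (q : ℝ) * (Real.pi / 2 * (Real.sqrt X - Real.sqrt 3 * m)) +
          2 * min (2 * m * Real.sqrt m) (X / (2 * m * Real.sqrt m)) := hsa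
      _ ≤ 1 / (q : ℝ) * (Real.pi / 2 * (Real.sqrt X - Real.sqrt 3 * m)) +
          2 * X ^ (2 / 3 : ℝ) * m ^ (-(1 / 2) : ℝ) := by linarith
  have h3 : ∫ m in (0 : ℝ)..Real.sqrt (X / 3),
        (1 / (q : ℝ) * (Real.pi / 2 * (Real.sqrt X - Real.sqrt 3 * m)) +
          2 * X ^ (2 / 3 : ℝ) * m ^ (-(1 / 2) : ℝ)) =
      1 / (q : ℝ) * (Real.pi / 2 * (Real.sqrt X * Real.sqrt (X / 3) -
        Real.sqrt 3 * (Real.sqrt (X / 3) ^ 2 / 2))) +
      2 * X ^ (2 / 3 : ℝ) * (2 * Real.sqrt (X / 3) ^ (1 / 2 : ℝ)) := by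
    rw [intervalIntegral.integral_add hint3 hint4, intervalIntegral.integral_const_mul,
      intervalIntegral.integral_const_mul, intervalIntegral.integral_const_mul,
      integral_rpow (Or.inl (by norm_num))]
    have e1 : ∫ m in (0 : ℝ)..Real.sqrt (X / 3), (Real.sqrt X - Real.sqrt 3 * m) =
        Real.sqrt X * Real.sqrt (X / 3) - Real.sqrt 3 * (Real.sqrt (X / 3) ^ 2 / 2) := by
      rw [intervalIntegral.integral_sub (by simp) (by
        apply Continuous.intervalIntegrable; fun_prop),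
        intervalIntegral.integral_const_mul, integral_id, intervalIntegral.integral_const]
      simp only [smul_eq_mul]
      ring
    rw [e1]
    have e2 : (-(1 / 2) + 1 : ℝ) = 1 / 2 := by norm_num
    rw [e2, Real.zero_rpow (by norm_num)]
    ring
  -- evaluation of the main term
  have hs3 : Real.sqrt 3 * Real.sqrt 3 = 3 := Real.mul_self_sqrt (by norm_num)
  have hs3p : 0 < Real.sqrt 3 := Real.sqrt_pos.mpr (by norm_num)
  have hRdiv : Real.sqrt (X / 3) = Real.sqrt X / Real.sqrt 3 := Real.sqrt_div hX0.le 3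
  have hXX : Real.sqrt X * Real.sqrt X = X := Real.mul_self_sqrt hX0.le
  have h4 : 1 / (q : ℝ) * (Real.pi / 2 * (Real.sqrt X * Real.sqrt (X / 3) -
        Real.sqrt 3 * (Real.sqrt (X / 3) ^ 2 / 2))) = Real.pi * X / (4 * Real.sqrt 3 * q) := by
    have e1 : Real.sqrt X * Real.sqrt (X / 3) = X / Real.sqrt 3 := by
      rw [hRdiv, ← mul_div_assoc, hXX]
    rw [hR2, e1]
    rw [show Real.sqrt 3 * (X / 3 / 2) = X / (2 * Real.sqrt 3) by
      field_simp
      nlinarith [hs3]]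
    field_simp
    ring
  have h5 : 2 * X ^ (2 / 3 : ℝ) * (2 * Real.sqrt (X / 3) ^ (1 / 2 : ℝ)) ≤ 4 * EX X := by
    have e1 : Real.sqrt (X / 3) ≤ X ^ (1 / 2 : ℝ) := by
      rw [← Real.sqrt_eq_rpow]
      exact Real.sqrt_le_sqrt (by linarith)
    have e2 : Real.sqrt (X / 3) ^ (1 / 2 : ℝ) ≤ X ^ (1 / 4 : ℝ) := by
      calc Real.sqrt (X / 3) ^ (1 / 2 : ℝ) ≤ (X ^ (1 / 2 : ℝ)) ^ (1 / 2 : ℝ) :=
            Real.rpow_le_rpow hR0 e1 (by norm_num)
        _ = X ^ (1 / 4 : ℝ) := by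
            rw [← Real.rpow_mul hX0.le]
            norm_num
    have e3 : X ^ (2 / 3 : ℝ) * X ^ (1 / 4 : ℝ) = X ^ (11 / 12 : ℝ) := by
      rw [← Real.rpow_add hX0]
      norm_num
    have e4 : X ^ (11 / 12 : ℝ) ≤ EX X :=
      Real.rpow_le_rpow_of_exponent_le hX (by norm_num)
    have e5 : 0 ≤ X ^ (2 / 3 : ℝ) := by positivity
    have e6 : X ^ (2 / 3 : ℝ) * Real.sqrt (X / 3) ^ (1 / 2 : ℝ) ≤ EX X :=
      (mul_le_mul_of_nonneg_left e2 e5).trans (e3.le.trans e4)
    linarith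
  rw [h1]
  refine h2.trans ?_
  rw [h3, h4]
  linarith

end Pool.Agent.Helper86.T3
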